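import Mathlib

/-!
Twisted convolution on the summable functions of a group, realised by operators.
-/

namespace Pool.Agent.FS.GroupCalkin

open Filter Topology

universe u

variable {G : Type u}

/-- Summable complex functions. -/
abbrev L1 (G : Type u) : Type u := lp (fun _ : G => ℂ) 1

open Classical in
/-- Point masses. -/
noncomputable def dl (g : G) : L1 G := lp.single 1 g 1

theorem norm_dl (g : G) : ‖dl g‖ = 1 := by
  classical
  rw [dl, lp.norm_single (by norm_num), norm_one]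

open Classical in
theorem dl_apply (g h : G) : dl g h = if h = g then 1 else 0 := by
  rw [dl, lp.single_apply, Pi.single_apply]

theorem hasSum_norm1 (a : L1 G) : HasSum (fun g => ‖a g‖) ‖a‖ := by
  simpa using lp.hasSum_norm (p := 1) (by simp) a

theorem hasSum_dl (a : L1 G) : HasSum (fun g => a g • dl g) a := by
  classical
  have e : (fun g => a g • dl g) = fun g => lp.single 1 g (a g) := funext fun g => by
    rw [dl, ← lp.single_smul, smul_eq_mul, mul_one]
  rw [e]
  exact lp.hasSum_single (by simp) a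

variable {F : Type*} [NormedAddCommGroup F] [NormedSpace ℂ F]

theorem hasSum_map (S : L1 G →L[ℂ] F) (a : L1 G) : HasSum (fun g => a g • S (dl g)) (S a) := by
  simpa using (hasSum_dl a).mapL S

theorem ext1 {S S' : L1 G →L[ℂ] F} (h : ∀ g, S (dl g) = S' (dl g)) : S = S' :=
  ContinuousLinearMap.ext fun a => (hasSum_map S a).unique (by
    simpa only [h] using hasSum_map S' a)

theorem exists_lift [CompleteSpace F] (v : G → F) (hv : ∀ g, ‖v g‖ ≤ 1) :
    ∃ S : L1 G →L[ℂ] F, (∀ a, ‖S a‖ ≤ ‖a‖) ∧ ∀ g, S (dl g) = v g := by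
  classical
  have h0 : ∀ (a : L1 G) g, ‖a g • v g‖ ≤ ‖a g‖ := fun a g => by
    rw [norm_smul]
    exact mul_le_of_le_one_right (norm_nonneg _) (hv g)
  have h1 : ∀ a : L1 G, Summable fun g => a g • v g := fun a =>
    Summable.of_norm_bounded (hasSum_norm1 a).summable (h0 a)
  have h2 : ∀ a : L1 G, ‖∑' g, a g • v g‖ ≤ ‖a‖ := fun a =>
    tsum_of_norm_bounded (hasSum_norm1 a) (h0 a)
  refine ⟨LinearMap.mkContinuous
    { toFun := fun a => ∑' g, a g • v g
      map_add' := fun a b => by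
        rw [← (h1 a).tsum_add (h1 b)]
        exact tsum_congr fun g => by rw [lp.coeFn_add, Pi.add_apply, add_smul]
      map_smul' := fun r a => by
        rw [RingHom.id_apply, ← (h1 a).tsum_const_smul]
        exact tsum_congr fun g => by rw [lp.coeFn_smul, Pi.smul_apply, smul_assoc] } 1
    fun a => by simpa using h2 a, h2, fun g => ?_⟩
  change ∑' h, dl g h • v h = v g
  rw [tsum_eq_single g fun h hh => by simp [dl_apply, hh]]
  simp [dl_apply]

variable [Group G]

/-- The left regular representation of a twisted convolution. -/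
theorem exists_rep (c : G → G → ℂ) (hc : ∀ g h, ‖c g h‖ ≤ 1) :
    ∃ Λ : L1 G →L[ℂ] L1 G →L[ℂ] L1 G, ∀ g h, Λ (dl g) (dl h) = c g h • dl (g * h) := by
  choose l h1 h2 using fun g => exists_lift (fun h => c g h • dl (g * h)) fun h => by
    rw [norm_smul, norm_dl, mul_one]
    exact hc g h
  obtain ⟨Λ, -, h3⟩ := exists_lift l fun g =>
    ContinuousLinearMap.opNorm_le_bound _ zero_le_one fun a => by simpa using h1 g a
  exact ⟨Λ, fun g h => by rw [h3, h2]⟩

variable {c : G → G → ℂ} {Λ : L1 G →L[ℂ] L1 G →L[ℂ] L1 G}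

theorem rep_apply (hΛ : ∀ g h, Λ (dl g) (dl h) = c g h • dl (g * h)) (a b : L1 G) (g : G) :
    Λ a b g = ∑' h, c h (h⁻¹ * g) * a h * b (h⁻¹ * g) := by
  classical
  have h1 : ∀ h, Λ (dl h) b g = c h (h⁻¹ * g) * b (h⁻¹ * g) := fun h => by
    have h2 := hasSum_map ((lp.evalCLM ℂ (fun _ : G => ℂ) 1 g).comp (Λ (dl h))) b
    have h3 : ∀ k, k ≠ h⁻¹ * g →
        b k • ((lp.evalCLM ℂ (fun _ : G => ℂ) 1 g).comp (Λ (dl h))) (dl k) = 0 := fun k hk => by
      have h4 : ¬ g = h * k := fun e => hk (by rw [e, inv_mul_cancel_left])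
      change b k • Λ (dl h) (dl k) g = 0
      rw [hΛ, lp.coeFn_smul, Pi.smul_apply, dl_apply, if_neg h4, smul_zero, smul_zero]
    have h5 := h2.unique (hasSum_single _ h3)
    change Λ (dl h) b g = b (h⁻¹ * g) • Λ (dl h) (dl (h⁻¹ * g)) g at h5
    rw [h5, hΛ, lp.coeFn_smul, Pi.smul_apply, dl_apply, if_pos (mul_inv_cancel_left h g).symm]
    simp [mul_comm]
  have h2 := hasSum_map ((lp.evalCLM ℂ (fun _ : G => ℂ) 1 g).comp
    ((ContinuousLinearMap.apply ℂ (L1 G) b).comp Λ)) a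
  change HasSum (fun h => a h • Λ (dl h) b g) (Λ a b g) at h2
  rw [← h2.tsum_eq]
  exact tsum_congr fun h => by rw [h1, smul_eq_mul]; ring

theorem rep_one (hΛ : ∀ g h, Λ (dl g) (dl h) = c g h • dl (g * h)) (h1 : ∀ g, c g 1 = 1)
    (a : L1 G) : Λ a (dl 1) = a := by
  have h : (ContinuousLinearMap.apply ℂ (L1 G) (dl 1)).comp Λ = ContinuousLinearMap.id ℂ _ :=
    ext1 fun g => by simp [hΛ, h1]
  exact DFunLike.congr_fun h a

theorem rep_unit (hΛ : ∀ g h, Λ (dl g) (dl h) = c g h • dl (g * h)) (h1 : ∀ g, c 1 g = 1) :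
    Λ (dl 1) = 1 := ext1 fun g => by simp [hΛ, h1]

theorem rep_mul (hΛ : ∀ g h, Λ (dl g) (dl h) = c g h • dl (g * h))
    (hco : ∀ g h k, c g h * c (g * h) k = c h k * c g (h * k)) (a b : L1 G) :
    Λ a * Λ b = Λ (Λ a b) := by
  have h1 : ∀ g h, Λ (dl g) * Λ (dl h) = Λ (Λ (dl g) (dl h)) := fun g h => ext1 fun k => by
    simp [hΛ, smul_smul, hco, mul_assoc]
  have h2 : ∀ g, (ContinuousLinearMap.mul ℂ _ (Λ (dl g))).comp Λ = Λ.comp (Λ (dl g)) :=
    fun g => ext1 fun h => h1 g h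
  have h3 : ((ContinuousLinearMap.mul ℂ _).flip (Λ b)).comp Λ =
      Λ.comp ((ContinuousLinearMap.apply ℂ (L1 G) b).comp Λ) :=
    ext1 fun g => DFunLike.congr_fun (h2 g) b
  exact DFunLike.congr_fun h3 a

open Classical in
/-- Restriction to a subgroup. -/
theorem exists_res (H : Subgroup G) : ∃ R : L1 G →L[ℂ] L1 G, (∀ a, ‖R a‖ ≤ ‖a‖) ∧
    ∀ g, R (dl g) = if g ∈ H then dl g else 0 :=
  exists_lift _ fun g => by split_ifs <;> simp [norm_dl]

open Classical in
theorem res_mod (hΛ : ∀ g h, Λ (dl g) (dl h) = c g h • dl (g * h)) {H : Subgroup G}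
    {R : L1 G →L[ℂ] L1 G} (hR : ∀ g, R (dl g) = if g ∈ H then dl g else 0) (a b : L1 G) :
    R (Λ a (R b)) = Λ (R a) (R b) := by
  have h1 : ∀ g, R.comp ((Λ (dl g)).comp R) = (Λ (R (dl g))).comp R := fun g => ext1 fun h => by
    by_cases hh : h ∈ H
    · by_cases hg : g ∈ H
      · simp [hR, hΛ, hh, hg, H.mul_mem hg hh]
      · have : g * h ∉ H := fun e => hg ((H.mul_mem_cancel_right hh).1 e)
        simp [hR, hΛ, hh, hg, this]
    · simp [hR, hh]
  have h2 : R.comp ((ContinuousLinearMap.apply ℂ (L1 G) (R b)).comp Λ) =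
      (ContinuousLinearMap.apply ℂ (L1 G) (R b)).comp (Λ.comp R) :=
    ext1 fun g => DFunLike.congr_fun (h1 g) b
  exact DFunLike.congr_fun h2 a

open Classical in
theorem res_nest {H K : Subgroup G} (h : H ≤ K) {R S : L1 G →L[ℂ] L1 G}
    (hR : ∀ g, R (dl g) = if g ∈ H then dl g else 0)
    (hS : ∀ g, S (dl g) = if g ∈ K then dl g else 0) (a : L1 G) : S (R a) = R a := by
  have h1 : S.comp R = R := ext1 fun g => by
    by_cases hg : g ∈ H
    · simp [hR, hS, hg, h hg]
    · simp [hR, hg]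
  exact DFunLike.congr_fun h1 a

open Classical in
theorem res_span {H : Subgroup G} (hH : (H : Set G).Finite) {R : L1 G →L[ℂ] L1 G}
    (hR : ∀ g, R (dl g) = if g ∈ H then dl g else 0) (a : L1 G) :
    R a ∈ Submodule.span ℂ (dl '' (H : Set G)) := by
  rw [(hasSum_map R a).unique (hasSum_sum_of_ne_finset_zero (s := hH.toFinset) fun g hg => by
    have : g ∉ H := by simpa using hg
    simp [hR, this])]
  refine Submodule.sum_mem _ fun g hg => Submodule.smul_mem _ _ ?_
  have : g ∈ H := by simpa using hg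
  rw [hR, if_pos this]
  exact Submodule.subset_span ⟨g, this, rfl⟩

open Classical in
theorem res_lim {H : ℕ → Subgroup G} (hH : ∀ g, ∀ᶠ n in atTop, g ∈ H n)
    {R : ℕ → L1 G →L[ℂ] L1 G} (h1 : ∀ n a, ‖R n a‖ ≤ ‖a‖)
    (hR : ∀ n g, R n (dl g) = if g ∈ H n then dl g else 0) (a : L1 G) :
    Tendsto (fun n => R n a) atTop (𝓝 a) := by
  refine Metric.tendsto_nhds.2 fun ε hε => ?_
  obtain ⟨s, hs⟩ := (Metric.tendsto_nhds.1 (hasSum_dl a) _ (half_pos hε)).exists
  refine ((eventually_all_finset s).2 fun g _ => hH g).mono fun n hn => ?_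
  have h2 : R n (∑ g ∈ s, a g • dl g) = ∑ g ∈ s, a g • dl g := by
    rw [map_sum]
    exact Finset.sum_congr rfl fun g hg => by rw [map_smul, hR, if_pos (hn g hg)]
  have h3 := h1 n (a - ∑ g ∈ s, a g • dl g)
  rw [map_sub, h2, ← dist_eq_norm, ← dist_eq_norm, dist_comm a] at h3
  linarith [dist_triangle (R n a) (∑ g ∈ s, a g • dl g) a]

end Pool.Agent.FS.GroupCalkin
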