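import Mathlib

/-!
Quotients of normed algebras that are twisted convolution algebras.
-/

namespace Pool.Agent.FS.GroupCalkin

/-- There is a linear map from `A` onto the absolutely summable functions on `G`, bounded for the
sum of the moduli, with kernel `K`, which turns products into `c`-twisted convolutions. -/
def QuotIsoL1 {A : Type*} [NormedRing A] [NormedAlgebra ℂ A] {G : Type*} [Group G]
    (c : G → G → ℂ) (K : Set A) : Prop :=
  ∃ Φ : A →ₗ[ℂ] G → ℂ, (∀ a, (∃ T, Φ T = a) ↔ Summable fun g => ‖a g‖) ∧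
    (∃ C : ℝ, ∀ T, ∑' g, ‖Φ T g‖ ≤ C * ‖T‖) ∧ (∀ T, Φ T = 0 ↔ T ∈ K) ∧
    ∀ S T g, Φ (S * T) g = ∑' h, c h (h⁻¹ * g) * Φ S h * Φ T (h⁻¹ * g)

end Pool.Agent.FS.GroupCalkin
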